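import Pool.Agent.N105.LT.Defs
import Pool.Agent.Helper717.LT.P_const_final

set_option autoImplicit false

open MeasureTheory Set Filter Topology Real

namespace Pool.Agent.N7.LG
open LTd

/-- LT/CST: the constant. -/
theorem cst (m : ℕ) : bco (m / 2) (3 / 2) (π ^ 2 / 3) = Kcl (m + 1) := by
  have hcf := const_final m
  have hpi := Real.pi_pos
  set t : ℝ := ((m : ℝ) + 1) / 2 with ht
  have htp : 0 < t := by rw [ht]; positivity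
  have hG : 0 < Gamma (t + 1) := Real.Gamma_pos_of_pos (by positivity)
  have hnn : 0 ≤ JJ ((m : ℝ) / 2) (3 / 2) * (π ^ 2 / 4 : ℝ) ^ ((3 / 2 : ℝ) - 1) := by
    rw [cf_JJ m t ht]
    positivity
  unfold bco at hcf ⊢
  have e1 : (π ^ 2 / 3 : ℝ) ^ ((3 / 2 : ℝ) - 1) =
      (4 / 3 : ℝ) ^ ((3 / 2 : ℝ) - 1) * (π ^ 2 / 4 : ℝ) ^ ((3 / 2 : ℝ) - 1) := by
    rw [← Real.mul_rpow (by norm_num) (by positivity)]
    congr 1
    ring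
  rw [e1, show JJ ((m : ℝ) / 2) (3 / 2) * ((4 / 3 : ℝ) ^ ((3 / 2 : ℝ) - 1) *
    (π ^ 2 / 4 : ℝ) ^ ((3 / 2 : ℝ) - 1)) = (4 / 3 : ℝ) ^ ((3 / 2 : ℝ) - 1) *
    (JJ ((m : ℝ) / 2) (3 / 2) * (π ^ 2 / 4 : ℝ) ^ ((3 / 2 : ℝ) - 1)) by ring,
    Real.mul_rpow (by positivity) hnn, hcf, ← Real.rpow_mul (by norm_num)]
  have e2 : ((3 / 2 : ℝ) - 1) * (1 / (3 / 2 + (m : ℝ) / 2 - 1)) = 1 / ((m : ℝ) + 1) := by
    have h1 : (3 / 2 + (m : ℝ) / 2 - 1) = ((m : ℝ) + 1) / 2 := by ring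
    rw [h1]
    field_simp
    norm_num
  rw [e2, ← mul_assoc, ← Real.mul_rpow (by norm_num) (by norm_num)]
  norm_num

end Pool.Agent.N7.LG
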